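import Pool.Agent.T2h55.Engel.General
import Pool.Agent.T2h55.Engel.Flat

/-!
# A leafwise contact foliation which splits and cannot be perturbed to an Engel structure

The manifold is the product of the Hantzsche-Wendt flat 3-manifold with a circle, foliated by the
3-dimensional factors. The leafwise contact structure is spanned, on the universal covering, by
`d/dx_2` and `sin (2 pi x_2) d/dx_0 + cos (2 pi x_2) d/dx_1`. Both lines are invariant under the
deck group, but the plane field has no nowhere vanishing section (its Euler class is a nonzero
2-torsion class), and an Engel structure close to it would produce one: the kernel line field of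
an Engel structure on an orientable manifold is orientable.
-/

set_option autoImplicit false

open Manifold ContDiff Bundle

namespace Pool.Agent.Results.MP_d7c110_gt.NoPerturbation

open Pool.Agent.T2h55.Engel.General

/-- There are a closed connected smooth 4-manifold `M`, a codimension one foliation `F` of `M` and
a leafwise contact structure `ξ` on `F`, which is the direct sum of two smooth line fields, such
that for every Riemannian metric `g` on `M` there is `ε > 0` such that no Engel structure on `M` is
`ε`-close to `ξ`. -/
theorem result : ∃ (M : Type) (_ : TopologicalSpace M) (_ : ChartedSpace R4 M)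
    (_ : IsManifold 𝓘(ℝ, R4) ∞ M),
    CompactSpace M ∧ T2Space M ∧ ConnectedSpace M ∧
    Nonempty (SmoothRiemMetric R4 M) ∧
    ∃ F ξ : PlaneField R4 M, IsFoliation F ∧ IsLeafwiseContact F ξ ∧ SplitsAsLineFields ξ ∧
      ∀ g : RiemMetric R4 M, ∃ ε : ℝ, 0 < ε ∧
        ∀ D : PlaneField R4 M, IsEngel D → ¬ IsClose g ε D ξ :=
  ⟨Pool.Agent.T2h55.Engel.M4, inferInstance,
    (inferInstance : ChartedSpace Pool.Agent.T2h55.Engel.E4 Pool.Agent.T2h55.Engel.M4),
    (inferInstance : IsManifold (𝓡 4) ∞ Pool.Agent.T2h55.Engel.M4),
    inferInstance, inferInstance, inferInstance, ⟨Pool.Agent.T2h55.Engel.flat⟩,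
    Pool.Agent.T2h55.Engel.Fo, Pool.Agent.T2h55.Engel.Xi,
    Pool.Agent.T2h55.Engel.foliation, Pool.Agent.T2h55.Engel.contact,
    Pool.Agent.T2h55.Engel.splits, fun g => Pool.Agent.T2h55.Engel.no_close g⟩

end Pool.Agent.Results.MP_d7c110_gt.NoPerturbation
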